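import Pool.Agent.R443.CL1
import Pool.Agent.R439.PLoc

/-!
# Clausen's identity for the series of `(3k)!/(k!)^3`, exact and modulo `p^2`

`(∑ a_k x^k)^2 = ∑ a_k C(2k,k) (x (1 - 27 x))^k`, `a_k = (3k)!/(k!)^3`, by interpolation of
the identity for the Legendre type polynomials in `Pool.Agent.R443.CL1` at `n = -1/3`.
-/

set_option autoImplicit false

namespace Pool.Agent.W2helper68.SP

open Finset Polynomial Pool.Agent.R443.CL Pool.Agent.R439.PL

/-! ### coefficients -/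

theorem coeff_D (n m : ℕ) : (D n).coeff m = e n m * b m := by
  unfold D
  rw [finsetSum_coeff]
  simp only [coeff_C_mul, coeff_X_pow, mul_ite, mul_one, mul_zero]
  rw [Finset.sum_ite_eq]
  split_ifs with h
  · rfl
  · rw [e_zero_of_lt (by rw [mem_range] at h; omega), zero_mul]

theorem coeff_t_pow (k m : ℕ) : ((t ^ k : ℤ[X])).coeff m = if k ≤ m then (k.choose (m - k) : ℤ) else 0 := by
  have h : (t ^ k : ℤ[X]) = X ^ k * (X + 1) ^ k := by
    unfold t
    rw [← mul_pow]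
    ring
  rw [h, coeff_X_pow_mul']
  split_ifs with hk
  · rw [coeff_X_add_one_pow]
  · rfl

theorem coeff_W (n m : ℕ) : (W n).coeff m =
    ∑ k ∈ range (m + 1), e n k * b k ^ 2 * (k.choose (m - k) : ℤ) := by
  unfold W
  rw [finsetSum_coeff]
  have h1 : ∀ k ∈ range (n + 1), (C (e n k * b k ^ 2) * t ^ k).coeff m =
      if k ≤ m then e n k * b k ^ 2 * (k.choose (m - k) : ℤ) else 0 := by
    intro k _
    rw [coeff_C_mul, coeff_t_pow]
    split_ifs
    · rfl
    · rw [mul_zero]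
  rw [sum_congr rfl h1, ← sum_filter]
  rw [← Finset.sum_subset (s₁ := (range (n + 1)).filter fun k => k ≤ m) (s₂ := range (m + 1))]
  · intro k hk
    rw [mem_filter] at hk
    rw [mem_range]
    omega
  · intro k hk hk'
    rw [mem_range] at hk
    rw [mem_filter, mem_range] at hk'
    rw [e_zero_of_lt (by omega), zero_mul, zero_mul]

theorem coeff_id (n m : ℕ) : ∑ q ∈ antidiagonal m, (e n q.1 * b q.1) * (e n q.2 * b q.2) =
    ∑ k ∈ range (m + 1), e n k * b k ^ 2 * (k.choose (m - k) : ℤ) := by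
  have h := congrArg (fun P => P.coeff m) (clausen_poly n)
  rw [sq, coeff_mul, coeff_W] at h
  rw [← h]
  exact sum_congr rfl fun q _ => by rw [coeff_D, coeff_D]

/-! ### interpolation -/

/-- `C(n + k, 2k)` as a polynomial in `n` -/
noncomputable def PE : ℕ → ℚ[X]
  | 0 => 1
  | k + 1 => C ((((2 * (k : ℚ) + 1) * (2 * k + 2)))⁻¹) * ((X - C (k : ℚ)) * (X + C ((k : ℚ) + 1))) * PE k

theorem PE_nat (n k : ℕ) : (PE k).eval (n : ℚ) = ((e n k : ℤ) : ℚ) := by
  induction k with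
  | zero => simp [PE, e]
  | succ k ih =>
    have h : (2 * (k : ℚ) + 1) * (2 * (k : ℚ) + 2) * ((e n (k + 1) : ℤ) : ℚ) =
        ((n : ℚ) - k) * ((n : ℚ) + k + 1) * ((e n k : ℤ) : ℚ) := by exact_mod_cast e_succ n k
    have h1 : (2 * (k : ℚ) + 1) ≠ 0 := by positivity
    have h2 : (2 * (k : ℚ) + 2) ≠ 0 := by positivity
    rw [PE, eval_mul, ih, eval_mul, eval_C, eval_mul, eval_sub, eval_X, eval_C, eval_add, eval_X,
      eval_C]
    rw [mul_assoc, inv_mul_eq_iff_eq_mul₀ (mul_ne_zero h1 h2), h]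
    ring

theorem poly_id (m : ℕ) : ∑ q ∈ antidiagonal m, (PE q.1 * C (b q.1 : ℚ)) * (PE q.2 * C (b q.2 : ℚ)) =
    ∑ k ∈ range (m + 1), PE k * C ((b k : ℚ) ^ 2 * (k.choose (m - k) : ℚ)) := by
  refine Polynomial.eq_of_infinite_eval_eq _ _ ?_
  refine Set.Infinite.mono (s := Set.range fun n : ℕ => (n : ℚ)) ?_
    (Set.infinite_range_of_injective Nat.cast_injective)
  rintro _ ⟨n, rfl⟩
  rw [Set.mem_ofPred_eq, eval_finsetSum, eval_finsetSum]
  simp only [eval_mul, eval_C, PE_nat]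
  have h : ((∑ q ∈ antidiagonal m, (e n q.1 * b q.1) * (e n q.2 * b q.2) : ℤ) : ℚ) =
    ((∑ k ∈ range (m + 1), e n k * b k ^ 2 * (k.choose (m - k) : ℤ) : ℤ) : ℚ) := by
    rw [coeff_id]
  push_cast at h
  rw [h]
  exact sum_congr rfl fun k _ => by ring

/-- `(3k)!/(k!)^3` -/
def A (k : ℕ) : ℚ := ((3 * k).factorial : ℚ) / (k.factorial : ℚ) ^ 3

theorem A_succ (k : ℕ) : ((k : ℚ) + 1) ^ 2 * A (k + 1) = 3 * (3 * k + 1) * (3 * k + 2) * A k := by
  have h1 : ((3 * (k + 1)).factorial : ℚ) =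
      (3 * (k : ℚ) + 3) * (3 * k + 2) * (3 * k + 1) * ((3 * k).factorial : ℚ) := by
    rw [show 3 * (k + 1) = 3 * k + 1 + 1 + 1 by ring, Nat.factorial_succ, Nat.factorial_succ,
      Nat.factorial_succ]
    push_cast
    ring
  have h2 : ((k + 1).factorial : ℚ) = ((k : ℚ) + 1) * k.factorial := by
    rw [Nat.factorial_succ]; push_cast; ring
  have h3 : (k.factorial : ℚ) ≠ 0 := by positivity
  have h4 : ((k : ℚ) + 1) ≠ 0 := by positivity
  rw [A, A, h1, h2]
  field_simp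

theorem PE_third (k : ℕ) : (PE k).eval (-1 / 3 : ℚ) * (b k : ℚ) = (-1 / 27) ^ k * A k := by
  induction k with
  | zero => simp [PE, b, A]
  | succ k ih =>
    have hb : ((k : ℚ) + 1) * (b (k + 1) : ℚ) = 2 * (2 * (k : ℚ) + 1) * (b k : ℚ) := by
      exact_mod_cast b_succ k
    have hA := A_succ k
    have h1 : (2 * (k : ℚ) + 1) ≠ 0 := by positivity
    have h2 : ((k : ℚ) + 1) ≠ 0 := by positivity
    rw [PE, eval_mul, eval_mul, eval_C, eval_mul, eval_sub, eval_X, eval_C, eval_add, eval_X,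
      eval_C]
    have h3 : (b (k + 1) : ℚ) = 2 * (2 * (k : ℚ) + 1) * (b k : ℚ) / ((k : ℚ) + 1) := by
      rw [eq_div_iff h2, ← hb]; ring
    have h4 : A (k + 1) = 3 * (3 * k + 1) * (3 * k + 2) * A k / ((k : ℚ) + 1) ^ 2 := by
      rw [eq_div_iff (pow_ne_zero 2 h2), ← hA]; ring
    have h5 : (2 * (k : ℚ) + 2) = 2 * ((k : ℚ) + 1) := by ring
    rw [h3, h4, pow_succ, h5]
    have h6 : ((2 * (k : ℚ) + 1) * (2 * ((k : ℚ) + 1)))⁻¹ *
        ((-1 / 3 - (k : ℚ)) * (-1 / 3 + ((k : ℚ) + 1))) * (PE k).eval (-1 / 3 : ℚ) *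
        (2 * (2 * (k : ℚ) + 1) * (b k : ℚ) / ((k : ℚ) + 1)) =
        ((-1 / 3 - (k : ℚ)) * (-1 / 3 + ((k : ℚ) + 1))) / ((k : ℚ) + 1) ^ 2 *
          ((PE k).eval (-1 / 3 : ℚ) * (b k : ℚ)) := by
      field_simp
    rw [h6, ih]
    ring

/-- **Clausen's identity**, coefficients -/
theorem A_conv (m : ℕ) : ∑ q ∈ antidiagonal m, A q.1 * A q.2 =
    ∑ k ∈ range (m + 1), A k * (b k : ℚ) * ((k.choose (m - k) : ℚ) * (-27) ^ (m - k)) := by
  have h := congrArg (fun P => P.eval (-1 / 3 : ℚ)) (poly_id m)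
  rw [eval_finsetSum, eval_finsetSum] at h
  simp only [eval_mul, eval_C] at h
  have h1 : ∀ q ∈ antidiagonal m, (PE q.1).eval (-1 / 3 : ℚ) * (b q.1 : ℚ) *
      ((PE q.2).eval (-1 / 3 : ℚ) * (b q.2 : ℚ)) = (-1 / 27) ^ m * (A q.1 * A q.2) := by
    intro q hq
    rw [PE_third, PE_third, ← HasAntidiagonal.mem_antidiagonal.1 hq, pow_add]
    ring
  have h2 : ∀ k ∈ range (m + 1), (PE k).eval (-1 / 3 : ℚ) *
      ((b k : ℚ) ^ 2 * (k.choose (m - k) : ℚ)) =
      (-1 / 27) ^ m * (A k * (b k : ℚ) * ((k.choose (m - k) : ℚ) * (-27) ^ (m - k))) := by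
    intro k hk
    have hk' := mem_range.1 hk
    have e1 : (-1 / 27 : ℚ) ^ m = (-1 / 27) ^ k * (-1 / 27) ^ (m - k) := by
      rw [← pow_add]; congr 1; omega
    have e2 : (-1 / 27 : ℚ) ^ (m - k) * (-27) ^ (m - k) = 1 := by
      rw [← mul_pow]; norm_num
    calc (PE k).eval (-1 / 3 : ℚ) * ((b k : ℚ) ^ 2 * (k.choose (m - k) : ℚ))
        = ((PE k).eval (-1 / 3 : ℚ) * (b k : ℚ)) * ((b k : ℚ) * (k.choose (m - k) : ℚ)) := by ring
      _ = (-1 / 27) ^ k * A k * ((b k : ℚ) * (k.choose (m - k) : ℚ)) *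
          ((-1 / 27 : ℚ) ^ (m - k) * (-27) ^ (m - k)) := by rw [PE_third, e2, mul_one]
      _ = _ := by rw [e1]; ring
  rw [sum_congr rfl h1, sum_congr rfl h2, ← mul_sum, ← mul_sum] at h
  exact mul_left_cancel₀ (pow_ne_zero m (by norm_num)) h

/-! ### modulo `p^2` -/

theorem split (p : ℕ) (g : ℕ → ℕ → ℚ) : ∑ i ∈ range p, ∑ j ∈ range p, g i j =
    ∑ m ∈ range p, ∑ q ∈ antidiagonal m, g q.1 q.2 +
      ∑ q ∈ (range p ×ˢ range p).filter (fun q => ¬ q.1 + q.2 < p), g q.1 q.2 := by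
  rw [← sum_product', ← sum_filter_add_sum_filter_not (range p ×ˢ range p)
    (fun q => q.1 + q.2 < p)]
  congr 1
  rw [← sum_fiberwise_of_maps_to (t := range p) (g := fun q : ℕ × ℕ => q.1 + q.2)
    (fun q hq => mem_range.2 (mem_filter.1 hq).2)]
  refine sum_congr rfl fun m hm => ?_
  refine sum_congr ?_ fun _ _ => rfl
  ext q
  rw [mem_filter, mem_filter, mem_product, mem_range, mem_range, HasAntidiagonal.mem_antidiagonal]
  rw [mem_range] at hm
  constructor
  · rintro ⟨-, h⟩; exact h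
  · intro h; exact ⟨⟨⟨by omega, by omega⟩, by omega⟩, h⟩

variable {p : ℕ} [hp : Fact p.Prime]

theorem U_fact {k : ℕ} (hk : k < p) : U p (k.factorial : ℚ) := by
  have h : ¬ (p : ℤ) ∣ (k.factorial : ℤ) := by
    intro h
    have h1 : p ∣ k.factorial := by exact_mod_cast h
    rw [hp.out.dvd_factorial] at h1
    omega
  exact_mod_cast U_int h

theorem I_nat {k n : ℕ} (h : p ^ k ∣ n) : I p k (n : ℚ) := by
  obtain ⟨c, rfl⟩ := h
  exact ⟨c, nat_mem c, by push_cast; ring⟩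

theorem A_mem {k : ℕ} (hk : k < p) : A k ∈ Zp p := by
  rw [A, div_eq_mul_inv]
  exact mul_mem (nat_mem _) ((U_fact hk).pow 3).2.2

theorem A_one {k : ℕ} (hk : k < p) (h : p ≤ 3 * k) : I p 1 (A k) := by
  rw [A, div_eq_mul_inv]
  refine (I_nat ?_).mulR ((U_fact hk).pow 3).2.2
  rw [pow_one]
  exact (hp.out.dvd_factorial).2 h

theorem A_two {k : ℕ} (hk : k < p) (h : 2 * p ≤ 3 * k) : I p 2 (A k) := by
  rw [A, div_eq_mul_inv]
  refine (I_nat ?_).mulR ((U_fact hk).pow 3).2.2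
  have h1 : p ^ 2 ∣ (p + p).factorial := by
    rw [sq]
    exact (mul_dvd_mul (Nat.dvd_factorial hp.out.pos le_rfl)
      (Nat.dvd_factorial hp.out.pos le_rfl)).trans (Nat.factorial_mul_factorial_dvd_factorial_add p p)
  exact h1.trans (Nat.factorial_dvd_factorial (by omega))

theorem b_one {k : ℕ} (hk : k < p) (h : p ≤ 2 * k) : I p 1 ((b k : ℤ) : ℚ) := by
  have h1 : p ^ 1 ∣ k.centralBinom := by
    rw [pow_one, Nat.centralBinom_eq_two_mul_choose]
    exact hp.out.dvd_choose (by omega) (by omega) h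
  have h2 := I_nat h1
  unfold b
  exact_mod_cast h2

theorem AA_two {i j : ℕ} (hi : i < p) (hj : j < p) (h : p ≤ i + j) : I p 2 (A i * A j) := by
  by_cases h1 : p ≤ 3 * i
  · by_cases h2 : p ≤ 3 * j
    · exact (A_one hi h1).mul (A_one hj h2)
    · exact (A_two hi (by omega)).mulR (A_mem hj)
  · exact (A_two hj (by omega)).mulL (A_mem hi)

/-- **Clausen's identity modulo `p^2`** -/
theorem clausen_mod {x : ℚ} (hx : x ∈ Zp p) :
    EQ p 2 (∑ k ∈ range p, A k * (b k : ℚ) * (x * (1 - 27 * x)) ^ k)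
      ((∑ k ∈ range p, A k * x ^ k) ^ 2) := by
  have m27 : (-27 : ℚ) ∈ Zp p := by exact_mod_cast int_mem (p := p) (-27)
  set V : ℚ := ∑ m ∈ range p, ∑ q ∈ antidiagonal m, (A q.1 * x ^ q.1) * (A q.2 * x ^ q.2) with hV
  have hVm : V ∈ Zp p := by
    refine sum_mem fun m hm => sum_mem fun q hq => ?_
    rw [mem_range] at hm
    rw [HasAntidiagonal.mem_antidiagonal] at hq
    exact mul_mem (mul_mem (A_mem (by omega)) (pow_mem hx _))
      (mul_mem (A_mem (by omega)) (pow_mem hx _))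
  -- the square
  have h1 : EQ p 2 ((∑ k ∈ range p, A k * x ^ k) ^ 2) V := by
    have hT : (∑ k ∈ range p, A k * x ^ k) ∈ Zp p :=
      sum_mem fun k hk => mul_mem (A_mem (mem_range.1 hk)) (pow_mem hx _)
    refine ⟨pow_mem hT 2, hVm, ?_⟩
    rw [sq, sum_mul_sum, split p (fun i j => A i * x ^ i * (A j * x ^ j)), ← hV, add_sub_cancel_left]
    refine I.sum fun q hq => ?_
    rw [mem_filter, mem_product, mem_range, mem_range, not_lt] at hq
    have e1 : A q.1 * x ^ q.1 * (A q.2 * x ^ q.2) = (A q.1 * A q.2) * (x ^ q.1 * x ^ q.2) := by ring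
    rw [e1]
    exact (AA_two hq.1.1 hq.1.2 hq.2).mulR (mul_mem (pow_mem hx _) (pow_mem hx _))
  -- the other side
  have h2 : EQ p 2 (∑ k ∈ range p, A k * (b k : ℚ) * (x * (1 - 27 * x)) ^ k) V := by
    have e0 : ∑ k ∈ range p, A k * (b k : ℚ) * (x * (1 - 27 * x)) ^ k =
        ∑ k ∈ range p, ∑ r ∈ range p, A k * (b k : ℚ) * ((k.choose r : ℚ) * (-27) ^ r) *
          x ^ (k + r) := by
      refine sum_congr rfl fun k hk => ?_
      have hk' := mem_range.1 hk
      have e1 : (1 - 27 * x) ^ k = ∑ r ∈ range p, (k.choose r : ℚ) * (-27) ^ r * x ^ r := by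
        have e2 : (1 - 27 * x) = (-27 * x) + 1 := by ring
        rw [e2, add_pow]
        rw [sum_subset (range_subset_range.2 (show k + 1 ≤ p by omega))]
        · refine sum_congr rfl fun r _ => ?_
          rw [one_pow, mul_pow]
          ring
        · intro r _ hr
          rw [mem_range, not_lt] at hr
          rw [Nat.choose_eq_zero_of_lt (by omega)]
          simp
      rw [mul_pow, e1, mul_sum, mul_sum]
      refine sum_congr rfl fun r _ => ?_
      rw [pow_add]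
      ring
    have e3 : V = ∑ m ∈ range p, ∑ q ∈ antidiagonal m,
        A q.1 * (b q.1 : ℚ) * ((q.1.choose q.2 : ℚ) * (-27) ^ q.2) * x ^ (q.1 + q.2) := by
      rw [hV]
      refine sum_congr rfl fun m _ => ?_
      have e4 : ∑ q ∈ antidiagonal m, (A q.1 * x ^ q.1) * (A q.2 * x ^ q.2) =
          x ^ m * ∑ q ∈ antidiagonal m, A q.1 * A q.2 := by
        rw [mul_sum]
        refine sum_congr rfl fun q hq => ?_
        rw [← HasAntidiagonal.mem_antidiagonal.1 hq, pow_add]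
        ring
      rw [e4, A_conv, mul_sum, Nat.sum_antidiagonal_eq_sum_range_succ_mk]
      refine sum_congr rfl fun k hk => ?_
      have hk' := mem_range.1 hk
      dsimp only
      rw [Nat.add_sub_cancel' (show k ≤ m by omega)]
      ring
    have hS : ∀ k ∈ range p, ∀ r ∈ range p,
        A k * (b k : ℚ) * ((k.choose r : ℚ) * (-27) ^ r) * x ^ (k + r) ∈ Zp p := by
      intro k hk r _
      exact mul_mem (mul_mem (mul_mem (A_mem (mem_range.1 hk)) (int_mem _))
        (mul_mem (nat_mem _) (pow_mem m27 _))) (pow_mem hx _)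
    rw [e0]
    refine ⟨sum_mem fun k hk => sum_mem fun r hr => hS k hk r hr, hVm, ?_⟩
    rw [e3, split p (fun k r => A k * (b k : ℚ) * ((k.choose r : ℚ) * (-27) ^ r) * x ^ (k + r)),
      add_sub_cancel_left]
    refine I.sum fun q hq => ?_
    rw [mem_filter, mem_product, mem_range, mem_range, not_lt] at hq
    by_cases hr : q.1 < q.2
    · rw [Nat.choose_eq_zero_of_lt hr]
      have : A q.1 * (b q.1 : ℚ) * (((0 : ℕ) : ℚ) * (-27) ^ q.2) * x ^ (q.1 + q.2) = 0 := by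
        rw [Nat.cast_zero]; ring
      rw [this]
      exact I.zero
    · refine I.mulR (I.mulR ?_ (mul_mem (nat_mem _) (pow_mem m27 _))) (pow_mem hx _)
      exact (A_one hq.1.1 (by omega)).mul (b_one hq.1.1 (by omega))
  exact h2.trans h1.symm

end Pool.Agent.W2helper68.SP
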