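import Pool.Agent.W2helper68.SP.Cla
import Pool.Agent.R488.Nin.Main

/-!
# `∑_{k<p} C(2k,k)^2 C(3k,k) / (-192)^k` modulo `p^2`
-/

set_option autoImplicit false

namespace Pool.Agent.W2helper68.SP

open Finset Pool.Agent.R439.PL Pool.Agent.R488.Cub Pool.Agent.R488.Nin

open Pool.Agent.R443.CL (b)

theorem A_mul_b (k : ℕ) : A k * ((b k : ℤ) : ℚ) = ((2 * k).choose k : ℚ) ^ 2 * ((3 * k).choose k : ℚ) := by
  have h1 := Nat.choose_mul_factorial_mul_factorial (show k ≤ 3 * k by omega)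
  have h2 := Nat.choose_mul_factorial_mul_factorial (show k ≤ 2 * k by omega)
  rw [show 3 * k - k = 2 * k by omega] at h1
  rw [show 2 * k - k = k by omega] at h2
  have h1' : ((3 * k).choose k : ℚ) * k.factorial * (2 * k).factorial = (3 * k).factorial := by
    exact_mod_cast h1
  have h2' : ((2 * k).choose k : ℚ) * k.factorial * k.factorial = (2 * k).factorial := by
    exact_mod_cast h2
  have h3 : (k.factorial : ℚ) ≠ 0 := by positivity
  have h4 : ((b k : ℤ) : ℚ) = ((2 * k).choose k : ℚ) := by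
    unfold b
    rw [Nat.centralBinom_eq_two_mul_choose]
    norm_num
  have h5 : A k = ((3 * k).choose k : ℚ) * ((2 * k).choose k : ℚ) := by
    rw [A, div_eq_iff (pow_ne_zero 3 h3), ← h1', ← h2']
    ring
  rw [h4, h5]
  ring

variable {p : ℕ} [hp : Fact p.Prime]

theorem not_dvd_of {a : ℤ} (h : ∀ q : ℕ, q.Prime → (q : ℤ) ∣ a → q ≤ 3) (h3 : 3 < p) :
    ¬ (p : ℤ) ∣ a := fun hd => absurd (h p hp.out hd) (by omega)

theorem U2 (h3 : 3 < p) : U p (2 : ℚ) := by
  have h : ¬ (p : ℤ) ∣ 2 := by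
    intro h
    have := Int.le_of_dvd (by norm_num) h
    omega
  exact_mod_cast U_int h

theorem U3 (h3 : 3 < p) : U p (3 : ℚ) := by
  have h : ¬ (p : ℤ) ∣ 3 := by
    intro h
    have := Int.le_of_dvd (by norm_num) h
    omega
  exact_mod_cast U_int h

theorem U24 (h3 : 3 < p) : U p (24 : ℚ) := by
  have h := ((U2 (p := p) h3).pow 3).mul (U3 h3)
  norm_num at h
  exact h

/-- the sum of the question -/
theorem S_eq_sq (h3 : 3 < p) : EQ p 2
    (∑ k ∈ range p, ((2 * k).choose k : ℚ) ^ 2 * ((3 * k).choose k : ℚ) / (-192) ^ k)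
    ((∑ k ∈ range p, ((3 * k).factorial : ℚ) / (k.factorial : ℚ) ^ 3 / 24 ^ k) ^ 2) := by
  have hx : ((24 : ℚ))⁻¹ ∈ Zp p := (U24 h3).2.2
  have h := clausen_mod hx
  have e1 : ((24 : ℚ)⁻¹ * (1 - 27 * 24⁻¹)) = (-192)⁻¹ := by norm_num
  rw [e1] at h
  have e2 : ∀ k ∈ range p, A k * ((b k : ℤ) : ℚ) * ((-192 : ℚ)⁻¹) ^ k =
      ((2 * k).choose k : ℚ) ^ 2 * ((3 * k).choose k : ℚ) / (-192) ^ k := by
    intro k _
    rw [A_mul_b, inv_pow, div_eq_mul_inv]
  have e3 : ∀ k ∈ range p, A k * ((24 : ℚ)⁻¹) ^ k =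
      ((3 * k).factorial : ℚ) / (k.factorial : ℚ) ^ 3 / 24 ^ k := by
    intro k _
    rw [A, inv_pow, ← div_eq_mul_inv]
  rw [sum_congr rfl e2, sum_congr rfl e3] at h
  exact h

/-! ### `p = 1` modulo `3` -/

theorem not_dvd_x (h3 : 3 < p) {x y : ℤ} (h : 4 * (p : ℤ) = x ^ 2 + 27 * y ^ 2) : ¬ (p : ℤ) ∣ x := by
  rintro ⟨a, ha⟩
  have hpr : Prime (p : ℤ) := Nat.prime_iff_prime_int.1 hp.out
  have h1 : (p : ℤ) ∣ 27 * y ^ 2 := ⟨4 - p * a ^ 2, by rw [ha] at h; linear_combination -h⟩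
  have h2 : (p : ℤ) ∣ y := by
    rcases hpr.dvd_or_dvd h1 with h2 | h2
    · exfalso
      have h27 : (p : ℤ) ∣ 3 ^ 3 := by norm_num; exact h2
      have := Int.le_of_dvd (by norm_num) (hpr.dvd_of_dvd_pow h27)
      omega
    · exact hpr.dvd_of_dvd_pow h2
  obtain ⟨c, hc⟩ := h2
  have hp0 : (0 : ℤ) < p := by exact_mod_cast hp.out.pos
  have h4 : 4 = (p : ℤ) * (a ^ 2 + 27 * c ^ 2) := by
    refine mul_left_cancel₀ hp0.ne' ?_
    rw [ha, hc] at h
    linear_combination h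
  have h5 : (p : ℤ) ∣ 4 := ⟨_, h4⟩
  have h6 := Int.le_of_dvd (by norm_num) h5
  have h7 : p = 4 := by omega
  have := hp.out
  rw [h7] at this
  exact absurd this (by norm_num)

theorem case_one (h3 : 3 < p) (h1 : p % 3 = 1) {x y : ℤ}
    (h : 4 * (p : ℤ) = x ^ 2 + 27 * y ^ 2) : EQ p 2
    (∑ k ∈ range p, ((2 * k).choose k : ℚ) ^ 2 * ((3 * k).choose k : ℚ) / (-192) ^ k)
    ((x : ℚ) ^ 2 - 2 * p) := by
  obtain ⟨j, hj⟩ : ∃ j, p = 6 * j + 1 := by
    have h2 : p % 2 = 1 := by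
      rcases hp.out.eq_two_or_odd with h | h
      · omega
      · exact h
    exact ⟨p / 6, by omega⟩
  -- the sign
  wlog hx : x % 3 = 2 generalizing x
  · have hx0 : x % 3 ≠ 0 := by
      intro h0
      obtain ⟨c, rfl⟩ : ∃ c, x = 3 * c := ⟨x / 3, by omega⟩
      have h4 : 4 * (p : ℤ) = 3 * (3 * c ^ 2 + 9 * y ^ 2) := by rw [h]; ring
      omega
    have := this (x := -x) (by rw [h]; ring) (by omega)
    push_cast at this
    rwa [neg_sq] at this
  have hu : U p (x : ℚ) := U_int (not_dvd_x h3 h)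
  have hT := ((main_x (p := p) hj h hx).2.trans (choose_L (p := p) hj h hx)).pow 2
  refine (S_eq_sq h3).trans (hT.trans ⟨hT.2.1, ?_, ?_⟩)
  · have m2 : (2 : ℚ) ∈ Zp p := by exact_mod_cast nat_mem (p := p) 2
    exact sub_mem (pow_mem hu.2.1 2) (mul_mem m2 p_mem)
  · refine ⟨((x : ℚ)⁻¹) ^ 2, pow_mem hu.2.2 2, ?_⟩
    have := hu.1
    field_simp
    ring

/-! ### `p = 2` modulo `3` -/

theorem FB_eq (h3 : 3 < p) {n : ℕ} (hpn : p = 3 * n + 2) : ∀ k, k ≤ n →
    EQ p 1 (FB n k) (A k * ((24 : ℚ)⁻¹) ^ k) := by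
  have hpq : (p : ℚ) = 3 * n + 2 := by exact_mod_cast hpn
  intro k
  induction k with
  | zero =>
    intro _
    have e1 : FB n 0 = 1 := by simp [FB]
    have e2 : A 0 * ((24 : ℚ)⁻¹) ^ 0 = 1 := by simp [A]
    rw [e1, e2]
    exact EQ.refl (one_mem _)
  | succ k ih =>
    intro hk
    have ih := ih (by omega)
    -- the units
    have uv : U p ((k : ℚ) + 1) := by
      have := Pool.Agent.R439.PL.S4.U_nat (p := p) (k := k + 1) (by omega) (by omega)
      push_cast at this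
      exact this
    have uu : U p ((p : ℚ) - (k + 1)) := by
      have := Pool.Agent.R439.PL.S4.U_nat (p := p) (k := p - (k + 1)) (by omega) (by omega)
      rw [Nat.cast_sub (by omega)] at this
      push_cast at this
      exact this
    have u8 : U p (8 : ℚ) := by
      have h := (U2 (p := p) h3).pow 3
      norm_num at h
      exact h
    have e1 : FB n (k + 1) = FB n k *
        (-((8 : ℚ)⁻¹ * ((p : ℚ) - (3 * k + 2)) * (p - (3 * k + 1)) *
          (((p : ℚ) - (k + 1))⁻¹ * ((k : ℚ) + 1)⁻¹))) := by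
      rw [FB, prod_range_succ, ← FB]
      congr 1
      have a1 : (3 * (n : ℚ) + 1 - k) = p - (k + 1) := by rw [hpq]; ring
      have a2 : ((n : ℚ) - k) = (p - (3 * k + 2)) / 3 := by rw [hpq]; ring
      have a3 : ((n : ℚ) + 1 / 3 - k) = (p - (3 * k + 1)) / 3 := by rw [hpq]; ring
      rw [a1, a2, a3]
      have := uv.1
      have := uu.1
      have h4 : (1 + (k : ℚ)) = k + 1 := by ring
      rw [h4]
      field_simp
      ring
    have e2 : A (k + 1) * ((24 : ℚ)⁻¹) ^ (k + 1) = A k * ((24 : ℚ)⁻¹) ^ k *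
        ((8 : ℚ)⁻¹ * (3 * k + 2) * (3 * k + 1) * (((k : ℚ) + 1)⁻¹ * ((k : ℚ) + 1)⁻¹)) := by
      have hA := A_succ k
      have h2 := uv.1
      have h4 : A (k + 1) = 3 * (3 * k + 1) * (3 * k + 2) * A k / ((k : ℚ) + 1) ^ 2 := by
        rw [eq_div_iff (pow_ne_zero 2 h2), ← hA]; ring
      rw [h4, pow_succ]
      field_simp
      ring
    rw [e1, e2]
    refine ih.mul ⟨?_, ?_, ?_⟩
    · refine neg_mem (mul_mem (mul_mem (mul_mem u8.2.2 (sub_mem p_mem ?_)) (sub_mem p_mem ?_))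
        (mul_mem uu.2.2 uv.2.2))
      · exact_mod_cast nat_mem (p := p) (3 * k + 2)
      · exact_mod_cast nat_mem (p := p) (3 * k + 1)
    · refine mul_mem (mul_mem (mul_mem u8.2.2 ?_) ?_) (mul_mem uv.2.2 uv.2.2)
      · exact_mod_cast nat_mem (p := p) (3 * k + 2)
      · exact_mod_cast nat_mem (p := p) (3 * k + 1)
    · refine ⟨-((8 : ℚ)⁻¹ * (((p : ℚ) - (6 * k + 3)) * (k + 1) + (3 * k + 2) * (3 * k + 1)) *
        (((p : ℚ) - (k + 1))⁻¹ * (((k : ℚ) + 1)⁻¹ * ((k : ℚ) + 1)⁻¹))), ?_, ?_⟩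
      · refine neg_mem (mul_mem (mul_mem u8.2.2 (add_mem (mul_mem (sub_mem p_mem ?_) uv.2.1)
          (mul_mem ?_ ?_))) (mul_mem uu.2.2 (mul_mem uv.2.2 uv.2.2)))
        · exact_mod_cast nat_mem (p := p) (6 * k + 3)
        · exact_mod_cast nat_mem (p := p) (3 * k + 2)
        · exact_mod_cast nat_mem (p := p) (3 * k + 1)
      · have := uv.1
        have := uu.1
        rw [pow_one]
        field_simp
        ring

theorem T_two (h3 : 3 < p) (h2 : p % 3 = 2) :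
    I p 1 (∑ k ∈ range p, ((3 * k).factorial : ℚ) / (k.factorial : ℚ) ^ 3 / 24 ^ k) := by
  obtain ⟨j, hj⟩ : ∃ j, p = 6 * j + 5 := by
    have h2 : p % 2 = 1 := by
      rcases hp.out.eq_two_or_odd with h | h
      · omega
      · exact h
    exact ⟨p / 6, by omega⟩
  have hpj : (p : ℚ) = 6 * j + 5 := by exact_mod_cast hj
  obtain ⟨n, hn⟩ : ∃ n, n = 2 * j + 1 := ⟨_, rfl⟩
  have hpn : p = 3 * n + 2 := by omega
  have e0 : ∀ k ∈ range p, ((3 * k).factorial : ℚ) / (k.factorial : ℚ) ^ 3 / 24 ^ k =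
      A k * ((24 : ℚ)⁻¹) ^ k := by
    intro k _
    rw [A, inv_pow, ← div_eq_mul_inv]
  rw [sum_congr rfl e0, ← sum_range_add_sum_Ico _ (show n + 1 ≤ p by omega)]
  have m24 := (U24 (p := p) h3).2.2
  refine I.add ?_ (I.sum fun k hk => ?_)
  · have h1 : EQ p 1 (∑ k ∈ range (n + 1), FB n k) (∑ k ∈ range (n + 1), A k * ((24 : ℚ)⁻¹) ^ k) :=
      EQ.sum fun k hk => FB_eq h3 hpn k (by rw [mem_range] at hk; omega)
    have h2 : I p 1 (∑ k ∈ range (n + 1), FB n k) := by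
      rw [evB n]
      refine I.mulL ?_ ?_
      · have : ((1 : ℚ) / 2) ∈ Zp p := by rw [one_div]; exact (U2 h3).2.2
        exact pow_mem this _
      · have u6 : U p (6 : ℚ) := by
          have h := (U2 (p := p) h3).mul (U3 h3)
          norm_num at h
          exact h
        rw [← mul_prod_erase (range n) _ (show j ∈ range n by rw [mem_range]; omega)]
        have hf : ∀ i ∈ range n, ((5 / 6 + i) / (2 / 3 + i) : ℚ) =
            ((5 + 6 * i : ℕ) : ℚ) * ((6 : ℚ)⁻¹ * (3 * (((2 + 3 * i : ℕ) : ℚ))⁻¹)) := by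
          intro i _
          push_cast
          have h6 : (2 + 3 * (i : ℚ)) ≠ 0 := by positivity
          have h7 : (2 / 3 + (i : ℚ)) ≠ 0 := by positivity
          field_simp
        have hm : ∀ i ∈ range n, ((6 : ℚ)⁻¹ * (3 * (((2 + 3 * i : ℕ) : ℚ))⁻¹)) ∈ Zp p := by
          intro i hi
          rw [mem_range] at hi
          exact mul_mem u6.2.2 (mul_mem (U3 h3).2.1
            (Pool.Agent.R439.PL.S4.U_nat (p := p) (k := 2 + 3 * i) (by omega) (by omega)).2.2)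
        refine I.mulR ?_ ?_
        · have hjn : j ∈ range n := by rw [mem_range]; omega
          rw [hf j hjn]
          refine I.mulR ?_ (hm j hjn)
          have : ((5 + 6 * j : ℕ) : ℚ) = p := by rw [hpj]; push_cast; ring
          rw [this]
          exact I_p
        · refine prod_mem fun i hi => ?_
          have hi' := mem_of_mem_erase hi
          rw [hf i hi']
          exact mul_mem (nat_mem _) (hm i hi')
    have e : ∑ k ∈ range (n + 1), A k * ((24 : ℚ)⁻¹) ^ k = ∑ k ∈ range (n + 1), FB n k -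
        (∑ k ∈ range (n + 1), FB n k - ∑ k ∈ range (n + 1), A k * ((24 : ℚ)⁻¹) ^ k) := by ring
    rw [e]
    exact h2.sub h1.2.2
  · rw [mem_Ico] at hk
    exact (A_one hk.2 (by omega)).mulR (pow_mem m24 _)

theorem case_two (h3 : 3 < p) (h2 : p % 3 = 2) : EQ p 2
    (∑ k ∈ range p, ((2 * k).choose k : ℚ) ^ 2 * ((3 * k).choose k : ℚ) / (-192) ^ k) 0 := by
  have h := S_eq_sq (p := p) h3
  refine h.trans ⟨h.2.1, zero_mem _, ?_⟩
  rw [sub_zero, sq]
  exact (T_two h3 h2).mul (T_two h3 h2)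

end Pool.Agent.W2helper68.SP
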